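import Pool.Agent.H31.MP.Basic
import Pool.Agent.H58.BV.DY
import Pool.Agent.H1.VT.AS

/-!
MP_76b9e7_nt, board mtp_modules, row DH: dyadic blocks.
-/

set_option autoImplicit false

open Finset Real ArithmeticFunction
open scoped Nat

namespace Pool.Agent.H75.MTP

open Pool.Agent.H31.MP
open Pool.Agent.H30.BV (NX wx WX SC SP TX cv PC Sf)
open Pool.Agent.H58.BV (SP_nonneg sum_SP_eq)

/-- The powers in a block. -/
theorem blk_pow {X a b D : ℝ} (hX : 3 ≤ X) (ha : 1 ≤ a) (hb0 : 0 ≤ b) (hb : b ≤ 2 * a)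
    (hbD : b ≤ D) (hb2 : b ^ 2 ≤ X) :
    X + b * X ^ (19 / 20 : ℝ) + b ^ 2 * √X + b ^ (5 / 2 : ℝ) * X ^ (1 / 5 : ℝ) ≤
      a * (X / a + (4 * X ^ (19 / 20 : ℝ) + 2 * (D * √X))) := by
  have hX0 : 0 < X := by linarith
  have ha0 : 0 < a := by linarith
  have h1 : 0 ≤ X ^ (19 / 20 : ℝ) := by positivity
  have h2 : 0 ≤ √X := Real.sqrt_nonneg X
  have hbX : b ≤ √X := Real.le_sqrt_of_sq_le hb2
  have h3 : b ^ (5 / 2 : ℝ) * X ^ (1 / 5 : ℝ) ≤ b * X ^ (19 / 20 : ℝ) := by
    have h4 : b ^ (5 / 2 : ℝ) = b * b ^ (3 / 2 : ℝ) := by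
      have h5 : (5 / 2 : ℝ) = 1 + 3 / 2 := by norm_num
      rw [h5, Real.rpow_add_of_nonneg hb0 (by norm_num) (by norm_num), Real.rpow_one]
    have h6 : b ^ (3 / 2 : ℝ) ≤ X ^ (3 / 4 : ℝ) := by
      have h7 : b ^ (3 / 2 : ℝ) ≤ (√X) ^ (3 / 2 : ℝ) :=
        Real.rpow_le_rpow hb0 hbX (by norm_num)
      have h8 : (√X) ^ (3 / 2 : ℝ) = X ^ (3 / 4 : ℝ) := by
        rw [Real.sqrt_eq_rpow, ← Real.rpow_mul hX0.le]
        norm_num
      rw [h8] at h7
      exact h7
    have h9 : X ^ (3 / 4 : ℝ) * X ^ (1 / 5 : ℝ) = X ^ (19 / 20 : ℝ) := by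
      rw [← Real.rpow_add hX0]
      norm_num
    rw [h4, mul_assoc]
    refine mul_le_mul_of_nonneg_left ?_ hb0
    rw [← h9]
    exact mul_le_mul_of_nonneg_right h6 (by positivity)
  have h4 : b * X ^ (19 / 20 : ℝ) ≤ 2 * a * X ^ (19 / 20 : ℝ) :=
    mul_le_mul_of_nonneg_right hb h1
  have h5 : b ^ 2 * √X ≤ 2 * a * (D * √X) := by
    have h6 : b ^ 2 ≤ 2 * a * D := by
      rw [pow_two]
      exact mul_le_mul hb hbD hb0 (by linarith)
    calc b ^ 2 * √X ≤ 2 * a * D * √X := mul_le_mul_of_nonneg_right h6 h2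
      _ = 2 * a * (D * √X) := by ring
  have h6 : a * (X / a + (4 * X ^ (19 / 20 : ℝ) + 2 * (D * √X))) =
      X + 4 * (a * X ^ (19 / 20 : ℝ)) + 2 * (a * (D * √X)) := by
    field_simp
    ring
  rw [h6]
  linarith

theorem pf_DH (hMH : T_MH) : T_DH := by
  obtain ⟨C, hC, hMH⟩ := hMH
  refine ⟨36 * C, by positivity, fun X Q₀ D hX hQ hD => ?_⟩
  have hX0 : 0 < X := by linarith
  set L : ℝ := Real.log X with hL
  have hL1 : 1 ≤ L := by
    have h1 : Real.exp 1 ≤ X := by
      have h2 := Real.exp_one_lt_d9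
      linarith
    rw [hL, Real.le_log_iff_exp_le hX0]
    exact h1
  have hL0 : 0 < L := by linarith
  set E : ℝ := 4 * X ^ (19 / 20 : ℝ) + 2 * (D * √X) with hE
  have hE0 : 0 ≤ E := by positivity
  have hDX : ∀ b : ℕ, b ≤ D → (b : ℝ) ^ 2 ≤ X := by
    intro b hb
    have h1 : (b : ℝ) ≤ D := by exact_mod_cast hb
    exact (pow_le_pow_left₀ (Nat.cast_nonneg b) h1 2).trans hD
  -- one block
  have block : ∀ a b : ℕ, 1 ≤ a → b ≤ 2 * a → b ≤ D →
      ∑ q ∈ Ioc a b, SP X q / (q.totient : ℝ) ≤ 3 * C * L ^ 5 * (X / a + E) := by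
    intro a b ha hba hbD
    have ha0 : (0 : ℝ) < a := by exact_mod_cast ha
    have hb2 := hDX b hbD
    have h1 : ∑ q ∈ Ioc a b, SP X q / (q.totient : ℝ) ≤
        ∑ q ∈ Ioc a b, SP X q * (3 * L / a) := by
      refine Finset.sum_le_sum fun q hq => ?_
      rw [Finset.mem_Ioc] at hq
      have hq1 : 1 ≤ q := by omega
      have hq0 : (0 : ℝ) < q := by exact_mod_cast (by omega : 0 < q)
      have haq : (a : ℝ) ≤ q := by exact_mod_cast hq.1.le
      have hqX : (q : ℝ) ≤ X := by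
        have h2 : (1 : ℝ) ≤ q := by exact_mod_cast hq1
        have h3 := hDX q (hq.2.trans hbD)
        nlinarith
      have h2 := Pool.Agent.H1.VT.totient_bound q hq1
      have h3 : Real.log q ≤ L := Real.log_le_log hq0 hqX
      have h4 : (1 + 2 * Real.log q) / q ≤ 3 * L / a := by
        refine div_le_div₀ (by positivity) (by linarith) ha0 haq
      rw [div_eq_mul_one_div]
      exact mul_le_mul_of_nonneg_left (h2.trans h4) (SP_nonneg X q)
    have h3 : ∑ q ∈ Ioc a b, SP X q ≤ ∑ q ∈ Ico 2 (b + 1), SP X q := by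
      refine Finset.sum_le_sum_of_subset_of_nonneg ?_ fun q _ _ => SP_nonneg X q
      intro q hq
      have := Finset.mem_Ioc.1 hq
      exact Finset.mem_Ico.2 ⟨by omega, by omega⟩
    rw [sum_SP_eq] at h3
    rcases Nat.eq_zero_or_pos b with hb0 | hb0
    · subst hb0
      rw [Finset.Ioc_eq_empty (by omega), Finset.sum_empty]
      positivity
    have h4 := hMH X b hX hb0 hb2
    have h5 := blk_pow (D := (D : ℝ)) hX (by exact_mod_cast ha : (1 : ℝ) ≤ a)
      (Nat.cast_nonneg b) (by exact_mod_cast hba) (by exact_mod_cast hbD) hb2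
    rw [← Finset.sum_mul] at h1
    refine h1.trans ?_
    have h6 : ∑ q ∈ Ioc a b, SP X q ≤ C * L ^ 4 * (a * (X / a + E)) :=
      h3.trans (h4.trans (mul_le_mul_of_nonneg_left h5 (by positivity)))
    refine (mul_le_mul_of_nonneg_right h6 (by positivity : 0 ≤ 3 * L / (a : ℝ))).trans
      (le_of_eq ?_)
    field_simp
  have key : ∀ I a : ℕ, 1 ≤ a → D ≤ 2 ^ I * a →
      ∑ q ∈ Ioc a D, SP X q / (q.totient : ℝ) ≤ 3 * C * L ^ 5 * (2 * (X / a) + I * E) := by
    intro I
    induction I with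
    | zero =>
      intro a ha hDa
      rw [pow_zero, one_mul] at hDa
      rw [Finset.Ioc_eq_empty (by omega), Finset.sum_empty]
      positivity
    | succ I ih =>
      intro a ha hDa
      have ha0 : (0 : ℝ) < a := by exact_mod_cast ha
      have hXa : 0 ≤ X / (a : ℝ) := by positivity
      rcases le_total D (2 * a) with h | h
      · refine (block a D ha h le_rfl).trans ?_
        refine mul_le_mul_of_nonneg_left ?_ (by positivity)
        have h1 : 0 ≤ (I : ℝ) * E := by positivity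
        push_cast
        linarith
      · have h1 := block a (2 * a) ha le_rfl h
        have h2 := ih (2 * a) (by omega) (by rw [pow_succ, mul_assoc] at hDa; exact hDa)
        have h3 : ∑ q ∈ Ioc a D, SP X q / (q.totient : ℝ) =
            ∑ q ∈ Ioc a (2 * a), SP X q / (q.totient : ℝ) +
              ∑ q ∈ Ioc (2 * a) D, SP X q / (q.totient : ℝ) := by
          rw [← Finset.sum_union]
          · rw [Finset.Ioc_union_Ioc_eq_Ioc (by omega) h]
          · rw [Finset.disjoint_left]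
            intro q hq1 hq2
            have := Finset.mem_Ioc.1 hq1
            have := Finset.mem_Ioc.1 hq2
            omega
        have h4 : 2 * (X / ((2 * a : ℕ) : ℝ)) = X / a := by
          push_cast
          field_simp
        rw [h4] at h2
        have h5 : 3 * C * L ^ 5 * (X / a + E) + 3 * C * L ^ 5 * (X / a + I * E) =
            3 * C * L ^ 5 * (2 * (X / a) + ((I + 1 : ℕ) : ℝ) * E) := by
          push_cast
          ring
        rw [h3]
        linarith
  have hlog : ((Nat.log 2 D + 1 : ℕ) : ℝ) ≤ 3 * L := by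
    rcases Nat.eq_zero_or_pos D with hD0 | hD0
    · subst hD0
      simp only [Nat.log_zero_right, zero_add, Nat.cast_one]
      linarith
    · have h1 : (2 : ℝ) ^ Nat.log 2 D ≤ D := by
        exact_mod_cast Nat.pow_log_le_self 2 hD0.ne'
      have h2 := Real.log_le_log (by positivity) h1
      rw [Real.log_pow] at h2
      have h3 : (D : ℝ) ≤ X := by
        have h4 : (1 : ℝ) ≤ D := by exact_mod_cast hD0
        nlinarith
      have h4 : Real.log D ≤ L := Real.log_le_log (by exact_mod_cast hD0) h3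
      have h5 : (0.5 : ℝ) < Real.log 2 := by
        have := Real.log_two_gt_d9
        linarith
      have h6 : (0 : ℝ) ≤ (Nat.log 2 D : ℝ) := Nat.cast_nonneg _
      push_cast
      nlinarith
  have h1 := key (Nat.log 2 D + 1) Q₀ hQ (by
    have h2 : D < 2 ^ (Nat.log 2 D + 1) := Nat.lt_pow_succ_log_self (by norm_num) D
    nlinarith)
  refine h1.trans ?_
  have hQ0 : (0 : ℝ) < Q₀ := by exact_mod_cast hQ
  have hXQ : 0 ≤ X / (Q₀ : ℝ) := by positivity
  have h2 : 2 * (X / (Q₀ : ℝ)) + ((Nat.log 2 D + 1 : ℕ) : ℝ) * E ≤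
      12 * L * (X / Q₀ + X ^ (19 / 20 : ℝ) + D * √X) := by
    have h3 : ((Nat.log 2 D + 1 : ℕ) : ℝ) * E ≤ 3 * L * E := mul_le_mul_of_nonneg_right hlog hE0
    have h4 : 2 * (X / (Q₀ : ℝ)) ≤ 12 * L * (X / Q₀) := by nlinarith
    have h5 : 3 * L * E ≤ 12 * L * (X ^ (19 / 20 : ℝ) + D * √X) := by
      rw [hE]
      have h6 : 0 ≤ L * (D * √X) := by positivity
      nlinarith
    linarith [mul_add (12 * L) (X / (Q₀ : ℝ)) (X ^ (19 / 20 : ℝ) + D * √X),
      add_assoc (X / (Q₀ : ℝ)) (X ^ (19 / 20 : ℝ)) (D * √X)]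
  refine (mul_le_mul_of_nonneg_left h2 (by positivity)).trans (le_of_eq ?_)
  ring

end Pool.Agent.H75.MTP
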