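import Pool.Agent.H31.MP.Basic

/-!
MP_76b9e7_nt, board mtp_modules, row SH: small conductors.
-/

set_option autoImplicit false

open Finset Real ArithmeticFunction
open scoped Nat

namespace Pool.Agent.H75.MTP

open Pool.Agent.H31.MP
open Pool.Agent.H30.BV (NX wx WX SC SP TX cv PC Sf)

theorem pf_SH (hSW : Pool.Agent.H47.VT.T_SW) (hSB : Pool.Agent.H30.BV.T_SB) : T_SH := by
  intro A B
  obtain ⟨X₀, hX₀⟩ := hSW (A + B) B
  refine ⟨max X₀ 3, fun X hX Q₀ hQ => ?_⟩
  have hX1 : X₀ ≤ X := (le_max_left _ _).trans hX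
  have hX3 : 3 ≤ X := (le_max_right _ _).trans hX
  have hX0 : 0 < X := by linarith
  have hL : 0 < Real.log X := Real.log_pos (by linarith)
  have hY : 0 ≤ X / Real.log X ^ (A + B) := by positivity
  have h1 : ∀ q ∈ Icc 2 Q₀, SP X q / (q.totient : ℝ) ≤ X / Real.log X ^ (A + B) := by
    intro q hq
    rw [Finset.mem_Icc] at hq
    have hq1 : 1 ≤ q := by omega
    have : NeZero q := ⟨by omega⟩
    have hphi : (0 : ℝ) < q.totient := by exact_mod_cast Nat.totient_pos.2 (by omega)
    have hqB : (q : ℝ) ≤ Real.log X ^ B := by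
      have h2 : (q : ℝ) ≤ Q₀ := by exact_mod_cast hq.2
      exact h2.trans hQ
    have h2 := hSB X (X / Real.log X ^ (A + B)) q hq1 (fun χ hχ => by
      have hne : χ ≠ 1 := by
        intro h
        have h3 : (1 : DirichletCharacter ℂ q).conductor = 1 :=
          DirichletCharacter.conductor_one
        have h4 : χ.conductor = q := hχ
        rw [h, h3] at h4
        omega
      have h3 := hX₀ X hX1 q χ 0 hq1 hqB hne (by simp) (by simp) (by
        simp only [Complex.zero_im, abs_zero]
        positivity)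
      have h4 : (fun n : ℕ => cv χ n * (n : ℂ) ^ (-(0 : ℂ))) = cv χ := by
        funext n
        rw [neg_zero, Complex.cpow_zero, mul_one]
      rw [h4] at h3
      exact h3) hY
    rw [div_le_iff₀ hphi, mul_comm]
    exact h2
  refine (Finset.sum_le_sum h1).trans ?_
  rw [Finset.sum_const, nsmul_eq_mul, Nat.card_Icc]
  have h2 : ((Q₀ + 1 - 2 : ℕ) : ℝ) ≤ Real.log X ^ B := by
    refine le_trans ?_ hQ
    exact_mod_cast (by omega : Q₀ + 1 - 2 ≤ Q₀)
  refine (mul_le_mul_of_nonneg_right h2 hY).trans (le_of_eq ?_)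
  rw [pow_add]
  field_simp

end Pool.Agent.H75.MTP
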